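import Mathlib

/-!
# Sequences of entire functions with uniform bounds
-/

set_option autoImplicit false

open Filter Topology Set Metric

namespace Pool.Agent.Y406.NE

lemma montel (h : ℕ → ℂ → ℂ) (hd : ∀ j, Differentiable ℂ (h j))
    (hbd : ∀ z : ℂ, ∃ B : ℝ, 0 ≤ B ∧ ∀ j, ∀ w ∈ ball z 1, ‖h j w‖ ≤ B) :
    ∃ φ : ℕ → ℕ, StrictMono φ ∧ ∃ g : ℂ → ℂ,
      TendstoLocallyUniformlyOn (fun j => h (φ j)) g atTop univ := by
  -- the equi-Lipschitz estimate
  have hL : ∀ z : ℂ, ∃ K : ℝ, 0 < K ∧ ∀ j, ∀ w ∈ ball z 1, ‖h j w - h j z‖ ≤ K * ‖w - z‖ := by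
    intro z
    obtain ⟨B, hB0, hB⟩ := hbd z
    refine ⟨(2 * B + 1) / 1, by positivity, fun j w hw => ?_⟩
    have hmaps : MapsTo (h j) (ball z 1) (closedBall (h j z) (2 * B)) := by
      intro x hx
      rw [mem_closedBall, dist_eq_norm]
      have h1 := hB j x hx
      have h2 := hB j z (mem_ball_self one_pos)
      have h3 := norm_sub_le (h j x) (h j z)
      linarith
    have h4 := Complex.dist_le_div_mul_dist_of_mapsTo_ball (hd j).differentiableOn hmaps hw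
    rw [dist_eq_norm, dist_eq_norm] at h4
    refine h4.trans ?_
    gcongr
    linarith
  -- values on a dense sequence
  set d : ℕ → ℂ := TopologicalSpace.denseSeq ℂ with hdd
  have hdense : DenseRange d := TopologicalSpace.denseRange_denseSeq ℂ
  have hbd' : ∀ k, ∃ C : ℝ, ∀ j, ‖h j (d k)‖ ≤ C := by
    intro k
    obtain ⟨B, hB0, hB⟩ := hbd (d k)
    exact ⟨B, fun j => hB j _ (mem_ball_self one_pos)⟩
  choose C hC using hbd'
  set x : ℕ → ℕ → ℂ := fun j k => h j (d k) with hx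
  have hcomp : IsCompact (Set.pi Set.univ fun k : ℕ => closedBall (0 : ℂ) |C k|) :=
    isCompact_univ_pi fun k => isCompact_closedBall _ _
  have hxm : ∀ j, x j ∈ Set.pi Set.univ fun k : ℕ => closedBall (0 : ℂ) |C k| := by
    intro j k _
    simp only [hx]
    rw [mem_closedBall_zero_iff]
    exact (hC k j).trans (le_abs_self _)
  obtain ⟨a, -, φ, hφ, hlim⟩ := hcomp.tendsto_subseq hxm
  have hk : ∀ k, CauchySeq fun j => h (φ j) (d k) := by
    intro k
    have h1 : Tendsto (fun j => x (φ j) k) atTop (𝓝 (a k)) :=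
      ((continuous_apply k).tendsto a).comp hlim
    exact h1.cauchySeq
  have hcau : ∀ z, CauchySeq fun j => h (φ j) z := by
    intro z
    obtain ⟨K, hK, hLip⟩ := hL z
    rw [Metric.cauchySeq_iff']
    intro ε hε
    obtain ⟨k, hkz⟩ : ∃ k, d k ∈ ball z (min 1 (ε / (3 * K))) :=
      hdense.exists_mem_open isOpen_ball ⟨z, mem_ball_self (by positivity)⟩
    have hkδ : d k ∈ ball z 1 := ball_subset_ball (min_le_left _ _) hkz
    have hke : ‖d k - z‖ < ε / (3 * K) := by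
      have := ball_subset_ball (min_le_right _ _) hkz
      rwa [mem_ball, dist_eq_norm] at this
    have hke' : K * ‖d k - z‖ < ε / 3 := by
      calc K * ‖d k - z‖ < K * (ε / (3 * K)) := by gcongr
        _ = ε / 3 := by field_simp
    obtain ⟨N, hN⟩ := (Metric.cauchySeq_iff'.1 (hk k)) (ε / 3) (by positivity)
    refine ⟨N, fun j hj => ?_⟩
    have h1 := hLip (φ j) (d k) hkδ
    have h2 := hLip (φ N) (d k) hkδ
    have h3 := hN j hj
    rw [dist_eq_norm] at h3 ⊢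
    calc ‖h (φ j) z - h (φ N) z‖ = ‖-(h (φ j) (d k) - h (φ j) z) + (h (φ j) (d k) - h (φ N) (d k))
          + (h (φ N) (d k) - h (φ N) z)‖ := by congr 1; abel
      _ ≤ ‖-(h (φ j) (d k) - h (φ j) z)‖ + ‖h (φ j) (d k) - h (φ N) (d k)‖
          + ‖h (φ N) (d k) - h (φ N) z‖ := norm_add₃_le
      _ < ε := by rw [norm_neg]; linarith
  have hex : ∀ z : ℂ, ∃ w : ℂ, Tendsto (fun j => h (φ j) z) atTop (𝓝 w) := fun z =>
    cauchySeq_tendsto_of_complete (hcau z)
  choose g hg using hex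
  refine ⟨φ, hφ, g, ?_⟩
  rw [Metric.tendstoLocallyUniformlyOn_iff]
  intro ε hε z _
  obtain ⟨K, hK, hLip⟩ := hL z
  refine ⟨ball z (min 1 (ε / (3 * K))), mem_nhdsWithin_of_mem_nhds (ball_mem_nhds _ (by positivity)),
    ?_⟩
  have h1 := (Metric.tendsto_atTop.1 (hg z)) (ε / 3) (by positivity)
  obtain ⟨N, hN⟩ := h1
  filter_upwards [eventually_ge_atTop N] with j hj w hw
  have hwδ : w ∈ ball z 1 := ball_subset_ball (min_le_left _ _) hw
  have hwe : K * ‖w - z‖ ≤ ε / 3 := by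
    have := ball_subset_ball (min_le_right _ _) hw
    rw [mem_ball, dist_eq_norm] at this
    calc K * ‖w - z‖ ≤ K * (ε / (3 * K)) := by gcongr
      _ = ε / 3 := by field_simp
  have h2 : ‖g w - g z‖ ≤ ε / 3 := by
    have h3 : Tendsto (fun j => ‖h (φ j) w - h (φ j) z‖) atTop (𝓝 ‖g w - g z‖) :=
      ((hg w).sub (hg z)).norm
    exact le_of_tendsto' h3 fun j => (hLip (φ j) w hwδ).trans hwe
  have h4 := (hLip (φ j) w hwδ).trans hwe
  have h5 := hN j hj
  rw [dist_eq_norm] at h5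
  rw [dist_comm, dist_eq_norm]
  calc ‖h (φ j) w - g w‖ = ‖(h (φ j) w - h (φ j) z) + (h (φ j) z - g z) + -(g w - g z)‖ := by
        congr 1; abel
    _ ≤ ‖h (φ j) w - h (φ j) z‖ + ‖h (φ j) z - g z‖ + ‖-(g w - g z)‖ := norm_add₃_le
    _ < ε := by rw [norm_neg]; linarith

/-- entire functions which agree on the real line are equal -/
lemma eq_of_real {f g : ℂ → ℂ} (hf : Differentiable ℂ f) (hg : Differentiable ℂ g)
    (h : ∀ x : ℝ, f x = g x) : f = g := by
  have hfa : AnalyticOnNhd ℂ f univ := hf.differentiableOn.analyticOnNhd isOpen_univ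
  have hga : AnalyticOnNhd ℂ g univ := hg.differentiableOn.analyticOnNhd isOpen_univ
  refine hfa.eq_of_frequently_eq (z₀ := 0) hga ?_
  have h1 : Tendsto (fun n : ℕ => ((1 / ((n : ℝ) + 1) : ℝ) : ℂ)) atTop (𝓝[≠] 0) := by
    refine tendsto_nhdsWithin_iff.2 ⟨?_, Eventually.of_forall fun n => ?_⟩
    · have h2 := (Complex.continuous_ofReal.tendsto 0).comp
        (tendsto_one_div_add_atTop_nhds_zero_nat (𝕜 := ℝ))
      rw [Complex.ofReal_zero] at h2
      exact h2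
    · rw [mem_compl_iff, mem_singleton_iff, Complex.ofReal_eq_zero]
      positivity
  exact h1.frequently (Frequently.of_forall fun n => h _)

/-- the statement -/
def S_LIM : Prop := ∀ (P : ℕ → ℂ → ℂ) (C : ℝ), 1 ≤ C → (∀ k, Differentiable ℂ (P k)) →
    (∀ k w, ‖P k w‖ ≤ C * Real.exp (C * ‖w‖ ^ (8 / 3 : ℝ))) →
    (∃ (μ : ℕ → ℕ) (G : ℂ → ℂ), StrictMono μ ∧ Differentiable ℂ G ∧
      (∀ w, ‖G w‖ ≤ C * Real.exp (C * ‖w‖ ^ (8 / 3 : ℝ))) ∧
      TendstoLocallyUniformly (fun k => P (μ k)) G Filter.atTop) ∧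
    (∀ u : ℝ → ℂ, (∀ x : ℝ, Filter.Tendsto (fun k => P k (x : ℂ)) Filter.atTop (nhds (u x))) →
      ∃ G : ℂ → ℂ, Differentiable ℂ G ∧ (∀ x : ℝ, G (x : ℂ) = u x) ∧
        (∀ w, ‖G w‖ ≤ C * Real.exp (C * ‖w‖ ^ (8 / 3 : ℝ))) ∧
        TendstoLocallyUniformly P G Filter.atTop)

lemma part1 (P : ℕ → ℂ → ℂ) (C : ℝ) (hC : 1 ≤ C) (hP : ∀ k, Differentiable ℂ (P k))
    (hb : ∀ k w, ‖P k w‖ ≤ C * Real.exp (C * ‖w‖ ^ (8 / 3 : ℝ))) :
    ∃ (μ : ℕ → ℕ) (G : ℂ → ℂ), StrictMono μ ∧ Differentiable ℂ G ∧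
      (∀ w, ‖G w‖ ≤ C * Real.exp (C * ‖w‖ ^ (8 / 3 : ℝ))) ∧
      TendstoLocallyUniformly (fun k => P (μ k)) G Filter.atTop := by
  obtain ⟨μ, hμ, G, hG⟩ := montel P hP (fun z => by
    refine ⟨C * Real.exp (C * (‖z‖ + 1) ^ (8 / 3 : ℝ)), by positivity, fun j w hw => ?_⟩
    refine (hb j w).trans ?_
    have h1 : ‖w‖ ≤ ‖z‖ + 1 := by
      rw [mem_ball, dist_eq_norm] at hw
      have := norm_le_norm_add_norm_sub' w z
      linarith
    gcongr)
  refine ⟨μ, G, hμ, ?_, ?_, tendstoLocallyUniformlyOn_univ.1 hG⟩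
  · rw [← differentiableOn_univ]
    exact hG.differentiableOn (Eventually.of_forall fun n => (hP (μ n)).differentiableOn)
      isOpen_univ
  · intro w
    exact le_of_tendsto' (hG.tendsto_at (mem_univ w)).norm fun k => hb (μ k) w

theorem lim : S_LIM := by
  intro P C hC hP hb
  refine ⟨part1 P C hC hP hb, fun u hu => ?_⟩
  obtain ⟨μ, G, hμ, hG, hGb, hGl⟩ := part1 P C hC hP hb
  have hGu : ∀ x : ℝ, G (x : ℂ) = u x := by
    intro x
    have h1 : Tendsto (fun k => P (μ k) (x : ℂ)) atTop (𝓝 (G x)) :=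
      (tendstoLocallyUniformlyOn_univ.2 hGl).tendsto_at (mem_univ (x : ℂ))
    exact tendsto_nhds_unique h1 ((hu x).comp hμ.tendsto_atTop)
  refine ⟨G, hG, hGu, hGb, ?_⟩
  have key : Tendsto (fun k => (⟨P k, (hP k).continuous⟩ : C(ℂ, ℂ))) atTop
      (𝓝 (⟨G, hG.continuous⟩ : C(ℂ, ℂ))) := by
    refine tendsto_of_subseq_tendsto fun ns hns => ?_
    obtain ⟨ms, G', hms, hG', hGb', hGl'⟩ := part1 (fun k => P (ns k)) C hC (fun k => hP _)
      (fun k w => hb _ w)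
    have hGG : G' = G := by
      refine eq_of_real hG' hG fun x => ?_
      have h1 : Tendsto (fun k => P (ns (ms k)) (x : ℂ)) atTop (𝓝 (G' x)) :=
        (tendstoLocallyUniformlyOn_univ.2 hGl').tendsto_at (mem_univ (x : ℂ))
      rw [hGu]
      exact tendsto_nhds_unique h1 ((hu x).comp (hns.comp hms.tendsto_atTop))
    refine ⟨ms, ?_⟩
    rw [ContinuousMap.tendsto_iff_tendstoLocallyUniformly]
    rw [hGG] at hGl'
    exact hGl'
  rw [ContinuousMap.tendsto_iff_tendstoLocallyUniformly] at key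
  exact key

end Pool.Agent.Y406.NE
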